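import Pool.Agent.Mg.Ff12303.Gc36b7b

open Pool.Agent.MP_f12303_co

theorem Pool.Agent.Results.MP_f12303_co.DensityBounds.result (n : ℕ) (hn : 2 ≤ n) :
    ∃ c₂ c₄ : ℝ, 0 < c₂ ∧ 0 < c₄ ∧
      ∀ M : Set (Fin n → ℤ), IsMinimalSubgraph M → ∀ x ∈ M, ∃ r₀ : ℝ, ∀ r : ℝ, r₀ ≤ r →
        c₂ * r ^ n ≤ ((M ∩ cube x r).ncard : ℝ) ∧
        c₄ * r ^ (n - 1) ≤ ((vertexBoundary M ∩ cube x r).ncard : ℝ) :=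
  main n hn
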